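import Pool.Agent.E8helper95.NP.Stm

set_option autoImplicit false

namespace Pool.Agent.E8helper50.NP

open Pool.Agent.E8helper95.NP

theorem rep_succ (p m : ℕ) : rep p (m + 1) = rep p m + (p : ℤ) ^ m := by
  simp [rep, Finset.sum_range_succ]

theorem rep_mul (p m : ℕ) : ((p : ℤ) - 1) * rep p m + 1 = (p : ℤ) ^ m := by
  induction m with
  | zero => simp [rep]
  | succ m ih =>
    rw [rep_succ, pow_succ]
    linear_combination ih

theorem rep_mono (p m n : ℕ) (h : m ≤ n) : rep p m ≤ rep p n := by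
  induction n with
  | zero =>
    have : m = 0 := by omega
    rw [this]
  | succ n ih =>
    rcases Nat.lt_or_eq_of_le h with h | h
    · have := ih (by omega)
      rw [rep_succ]
      have h2 : (0 : ℤ) ≤ (p : ℤ) ^ n := by positivity
      linarith
    · rw [h]

theorem t_B0 : S_B0 := by
  intro k p m a₁ a hs hlt
  have hp3 : (3 : ℤ) ≤ p := by exact_mod_cast hs.hp3
  have hodd : Odd p := hs.hp.odd_of_ne_two (by have := hs.hp3; omega)
  obtain ⟨c, hc⟩ := hodd
  have hcZ : (p : ℤ) = 2 * c + 1 := by exact_mod_cast hc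
  set S : ℤ := rep p m with hS
  have hpm : ((p : ℤ) - 1) * S + 1 = (p : ℤ) ^ m := rep_mul p m
  have hrep2 : rep p 2 = (p : ℤ) + 1 := by
    simp [rep, Finset.sum_range_succ]; ring
  have hrep3 : rep p 3 = (p : ℤ) ^ 2 + p + 1 := by
    simp [rep, Finset.sum_range_succ]; ring
  have hS2 : (p : ℤ) + 1 ≤ S := by
    rw [← hrep2]; exact rep_mono p 2 m hs.hm
  have heq := hs.eq
  rw [pow_zero, mul_one, ← hpm] at heq
  obtain ⟨i, hi⟩ : ∃ i, k + 1 = a + (i + 1) := ⟨k - a, by have := hs.ha₂; omega⟩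
  obtain ⟨j, hj⟩ : ∃ j, k + 1 = a₁ + (j + 1) := ⟨k - a₁, by have := hs.ha₁; omega⟩
  have hMi : (2 : ℤ) ^ (k + 1) = 2 ^ a * (2 * 2 ^ i) := by
    rw [hi, pow_add, pow_succ]; ring
  have hMj : (2 : ℤ) ^ (k + 1) = 2 ^ a₁ * (2 * 2 ^ j) := by
    rw [hj, pow_add, pow_succ]; ring
  set A : ℤ := 2 ^ a with hA
  set A1 : ℤ := 2 ^ a₁ with hA1
  set M : ℤ := 2 ^ (k + 1) with hM
  have hApos : 1 ≤ A := one_le_pow₀ (by norm_num)
  have hA1pos : 1 ≤ A1 := one_le_pow₀ (by norm_num)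
  have hIpos : (1 : ℤ) ≤ 2 ^ i := one_le_pow₀ (by norm_num)
  have hJpos : (1 : ℤ) ≤ 2 ^ j := one_le_pow₀ (by norm_num)
  set h : ℤ := M - p - (p - 1) * A with hh
  have hSh : S * h = 1 + A + A1 := by
    rw [hh]; linear_combination heq
  have hSpos : 0 < S := by linarith
  have hh1 : 1 ≤ h := by
    by_contra hcon
    have : h ≤ 0 := by omega
    nlinarith
  have hMA1 : 2 * A1 ≤ M := by
    rw [hMj]; nlinarith
  have hhp : 2 * A ≤ h + p := by
    have h1 : h + p = A * (2 * 2 ^ i - 2 * c) := by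
      rw [hh, hMi, hcZ]; ring
    have h2 : 0 < A * (2 * 2 ^ i - 2 * c) := by rw [← h1]; linarith
    have h3 : 0 < 2 * (2 : ℤ) ^ i - 2 * c := by
      by_contra hcon
      have : 2 * (2 : ℤ) ^ i - 2 * c ≤ 0 := by omega
      nlinarith
    have h4 : 2 ≤ 2 * (2 : ℤ) ^ i - 2 * c := by omega
    rw [h1]
    nlinarith
  have hineq : h * (4 * S - 3 - p) ≤ (p : ℤ) ^ 2 + 3 * p + 4 := by
    have e1 : M = A * (p - 1) + h + p := by rw [hh]; ring
    nlinarith
  rcases Nat.lt_or_eq_of_le hs.hm with hm3 | hm2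
  · have hS3 : (p : ℤ) ^ 2 + p + 1 ≤ S := by
      rw [← hrep3]; exact rep_mono p 3 m hm3
    nlinarith
  · have hSe : S = (p : ℤ) + 1 := by rw [hS, ← hm2, hrep2]
    have ha0 : a = 0 := by
      by_contra hne
      obtain ⟨x, hx⟩ := Nat.exists_eq_succ_of_ne_zero hne
      obtain ⟨y, hy⟩ := Nat.exists_eq_succ_of_ne_zero (show a₁ ≠ 0 by omega)
      have hAx : A = 2 * 2 ^ x := by rw [hA, hx, pow_succ]; ring
      have hAy : A1 = 2 * 2 ^ y := by rw [hA1, hy, pow_succ]; ring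
      rw [hSe, hAx, hAy, hcZ] at hSh
      have : (2 : ℤ) * ((c + 1) * h - 2 ^ x - 2 ^ y) = 1 := by linear_combination hSh
      omega
    have hA0 : A = 1 := by rw [hA, ha0, pow_zero]
    rw [hSe, hA0] at hSh
    have hM' : M = 2 * p - 1 + h := by rw [hh, hA0]; ring
    have hle : h * (2 * p + 1) ≤ 2 * (p : ℤ) + 3 := by nlinarith
    have hh2 : h = 1 := by
      by_contra hne
      have : 2 ≤ h := by omega
      nlinarith
    rw [hh2] at hM'
    have hMp : (2 : ℤ) ^ k = p := by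
      have : (2 : ℤ) * 2 ^ k = 2 * p := by
        rw [← pow_succ']; rw [← hM, hM']; ring
      linarith
    have hk : k ≠ 0 := by have := hs.ha₁; omega
    obtain ⟨z, hz⟩ := Nat.exists_eq_succ_of_ne_zero hk
    rw [hz, pow_succ, hcZ] at hMp
    omega

end Pool.Agent.E8helper50.NP
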